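import Pool.Agent.helper70.BND.SpecH

/-!
# Project bnd, block H, row BAS: bases
-/

set_option autoImplicit false

open scoped Topology
open Finset

namespace Pool.Agent.BND.EX

theorem BAS (hWDC : WDC_stmt) (hMKL : MKL_stmt) : BAS_stmt := by
  intro H _ H' A th hL hG
  have _h := hMKL
  refine ⟨fun nn => ?_, fun e he => ?_⟩
  · obtain ⟨z, hz⟩ := hL.bas fun j => nn (A.n + A.n * A.n + j)
    refine ⟨z, fun e h1 h2 => ?_⟩
    obtain ⟨j, rfl⟩ : ∃ j, e = A.n + A.n * A.n + j := ⟨e - (A.n + A.n * A.n), by omega⟩
    have hj : j < A.k := by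
      have : A.n + A.n * A.n + j < A.n + A.n * A.n + A.k := h2
      omega
    have hW : ∀ b : Bool, A.l.W (A.n + A.n * A.n + j) b =
        wd A.n fun v => if b then (A.c j v).toNat else (-(A.c j v)).toNat := by
      intro b
      show Wd A.n A.c (A.n + A.n * A.n + j) b = _
      unfold Wd
      rw [if_neg (by omega), if_neg (by omega)]
      have h3 : A.n + A.n * A.n + j - (A.n + A.n * A.n) = j := by omega
      rw [h3]
    rw [hW true, hW false, (hWDC A.n _).2.2 ℤ z, (hWDC A.n _).2.2 ℤ z, ← Finset.sum_sub_distrib]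
    refine (Finset.sum_congr rfl fun v _ => ?_).trans (hz j hj)
    simp only [if_true, Bool.false_eq_true, if_false, nsmul_eq_mul]
    rw [← sub_mul]
    congr 1
    omega
  · show (Wd A.n A.c e true).Perm (Wd A.n A.c e false)
    unfold Wd
    by_cases h1 : e < A.n
    · rw [if_pos h1, if_pos h1]
    · rw [if_neg h1, if_neg h1, if_pos he, if_pos he]
      simp only [if_true, Bool.false_eq_true, if_false]
      exact List.Perm.swap _ _ _

end Pool.Agent.BND.EX
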